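import Pool.Agent.Helper878_pd.Main

/-!
# Disjoint Connected Subgraphs on `(2P_1+P_2)`-free graphs with short and dominating links

The number `k` of terminal sets is part of the input.  We show that Disjoint Connected Subgraphs
(and so its special case Disjoint Paths, where every terminal set has two elements) is solvable in
polynomial time on `(2P_1+P_2)`-free graphs in which

* (short links) no induced `P_5` has its two ends in one terminal set `Z`, its second and fourth
  vertex among the nonterminals, and its middle vertex in `Z` or among the nonterminals;
* (dominating links) if an induced `P_4` has its two ends in one terminal set and its two inner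
  vertices `a`, `b` among the nonterminals, then every other terminal is adjacent to `a` or `b`.

Both conditions hold in every `(2P_1+P_2,P_5,C_5)`-free graph, so in particular in every
`(3P_1,C_5)`-free graph.
-/

set_option autoImplicit false

namespace Pool.Agent.Results.MP_ef7581_lc.DominatingLinks

open Pool.Agent.NPC Pool.Agent.Helper878_dcs

/-- Disjoint Connected Subgraphs restricted to `(2P_1+P_2)`-free graphs with short and dominating
links is in P. -/
theorem result : InPP (fun I : Inst => WellFormed I ∧ Free twoP1P2 (graph I.1 I.2.1) ∧
    Helper878_pd.ShortLinks I ∧ Helper878_pd.DominatingLinks I ∧ DCS I) :=
  Helper878_pd.main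

end Pool.Agent.Results.MP_ef7581_lc.DominatingLinks
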