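import Pool.Agent.Helper878_bl.Many

/-!
# Disjoint Connected Subgraphs on `(2P_1+P_2)`-free graphs with many nonterminals per hard set

The number `k` of terminal sets is part of the input.  A disconnected terminal set is hard if fewer
than `3k` nonterminals alone make it connected.  We show that Disjoint Connected Subgraphs (and so
its special case Disjoint Paths, where every terminal set has two elements) is solvable in
polynomial time on `(2P_1+P_2)`-free graphs (and so on `3P_1`-free graphs) if the number of
nonterminals is at least `49` times the number of hard terminal sets.  There are at most as many
hard terminal sets as disconnected ones (`Pool.Agent.Helper878_bl.numHard_le`), so this contains all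
inputs with at least `49` nonterminals per disconnected terminal set.
-/

set_option autoImplicit false

namespace Pool.Agent.Results.MP_ef7581_lc.ManyForHard

open Pool.Agent.NPC Pool.Agent.Helper878_dcs

/-- Disjoint Connected Subgraphs restricted to `(2P_1+P_2)`-free graphs in which the number of
nonterminals is at least `49` times the number of hard terminal sets is in P. -/
theorem result : InPP (fun I : Inst => WellFormed I ∧ Free twoP1P2 (graph I.1 I.2.1) ∧
    49 * Helper878_bj.numHard I ≤ numFree I ∧ DCS I) :=
  Helper878_bl.mainM

end Pool.Agent.Results.MP_ef7581_lc.ManyForHard
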