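import Pool.Agent.Helper878_bh.Cor

/-!
# Disjoint Connected Subgraphs on nearly tame `(2P_1+P_2)`-free inputs

The number `k` of terminal sets is part of the input.  A disconnected terminal set is hard if fewer
than `3k` nonterminals alone make it connected.  For every fixed `t` we show that Disjoint Connected
Subgraphs (and so its special case Disjoint Paths, where every terminal set has two elements) is
solvable in polynomial time on `(2P_1+P_2)`-free graphs if, after deleting some nonterminals and
ignoring some terminal sets, at most `t` in all,

* every hard terminal set has at most two elements or contains an edge, and every nonterminal has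
  a neighbour in it (both hold in every `3P_1`-free graph);
* the pairs of nonadjacent nonterminals which see different parts of a hard terminal set joined by
  two adjacent nonterminals contain no `t` times `t` biclique.

Special cases (see `Pool.Agent.Helper878_bh.Cor` and `Pool.Agent.Helper878_bg.Cor`): the
`(2P_1+P_2)`-free graphs from which at most `t` vertices can be deleted so that the rest is
`(3P_1,2K_t)`-free; the `3P_1`-free inputs in which at most `t` nonterminals separate the graph
induced by the nonterminals.
-/

set_option autoImplicit false

namespace Pool.Agent.Results.MP_ef7581_lc.NearlyTame

open Pool.Agent.NPC Pool.Agent.Helper878_dcs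

/-- Disjoint Connected Subgraphs restricted to nearly tame `(2P_1+P_2)`-free inputs is in P. -/
theorem result (t : ℕ) :
    InPP (fun I : Inst => WellFormed I ∧ Free twoP1P2 (graph I.1 I.2.1) ∧
      Helper878_bh.NearlyTame t I ∧ DCS I) :=
  Helper878_bh.mainD t

end Pool.Agent.Results.MP_ef7581_lc.NearlyTame
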