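import Pool.Agent.Helper878_bk.Cor

/-!
# Disjoint Connected Subgraphs on settled uniform `(2P_1+P_2)`-free inputs

The number `k` of terminal sets is part of the input.  A disconnected terminal set is hard if fewer
than `3k` nonterminals alone make it connected.  For every fixed `t` we show that Disjoint Connected
Subgraphs (and so its special case Disjoint Paths, where every terminal set has two elements) is
solvable in polynomial time on `(2P_1+P_2)`-free graphs if there are a set `S` of nonterminals and a
set `T` of terminal sets, at most `t` elements in all, such that, for the set `U` of the
nonterminals outside `S`:

* every hard terminal set `Z` outside `T` has at most two elements or contains an edge, and every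
  vertex of `U` has a neighbour in `Z` (both hold in every `3P_1`-free graph);
* any two nonadjacent vertices of `U` see different components of every hard `Z` outside `T`, or
  each of them alone makes `Z` connected;
* some solution leaves a vertex of `U` unused, or no vertex of `U` is exceptional, also after
  deleting at most `3t` vertices of `U` and ignoring at most `t` further terminal sets.

Here a vertex `e` is exceptional only if it alone makes none of the remaining `h` hard terminal sets
connected, exactly `h` remaining nonterminals are neither always on its side nor always opposite to
it, at most `h` are, some are opposite, none of these is adjacent to one on its side, and for two
of the hard terminal sets and two nonterminals `a`, `b` the sides of `a` and `b` are exchanged.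

There is no condition on the number of nonterminals.  If there are at least `2h + 1 + t` of them
then every solvable input with the first two properties has the third one
(`Pool.Agent.Helper878_bk.settled_of_count`).  No vertex is exceptional if every vertex of `U` alone
makes more than `t` hard terminal sets outside `T` connected
(`Pool.Agent.Helper878_bk.calm_of_joins`).
-/

set_option autoImplicit false

namespace Pool.Agent.Results.MP_ef7581_lc.UniformSettled

open Pool.Agent.NPC Pool.Agent.Helper878_dcs

/-- Disjoint Connected Subgraphs restricted to settled uniform `(2P_1+P_2)`-free inputs is in P. -/
theorem result (t : ℕ) :
    InPP (fun I : Inst => WellFormed I ∧ Free twoP1P2 (graph I.1 I.2.1) ∧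
      Helper878_bk.UniformSettled t I ∧ DCS I) :=
  Helper878_bk.mainZ t

end Pool.Agent.Results.MP_ef7581_lc.UniformSettled
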